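import Mathlib

set_option autoImplicit false
set_option linter.unusedSectionVars false

/-!
# Counting list colourings: basic identities
-/

namespace Pool.Agent.Q274.LCF

open Finset
open scoped Classical

variable {W : Type} [Fintype W]

/-- the finset of proper `L`-colourings of `H` -/
noncomputable def cols (H : SimpleGraph W) (L : W → Finset ℕ) : Finset (W → ℕ) :=
  (Fintype.piFinset L).filter (fun f => ∀ x y, H.Adj x y → f x ≠ f y)

theorem mem_cols {H : SimpleGraph W} {L : W → Finset ℕ} {f : W → ℕ} :
    f ∈ cols H L ↔ (∀ w, f w ∈ L w) ∧ ∀ x y, H.Adj x y → f x ≠ f y := by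
  unfold cols
  rw [mem_filter, Fintype.mem_piFinset]

theorem cols_mono {H : SimpleGraph W} {L L' : W → Finset ℕ} (h : ∀ w, L w ⊆ L' w) :
    cols H L ⊆ cols H L' := by
  intro f hf
  rw [mem_cols] at hf ⊢
  exact ⟨fun w => h w (hf.1 w), hf.2⟩

theorem card_cols_mono {H : SimpleGraph W} {L L' : W → Finset ℕ} (h : ∀ w, L w ⊆ L' w) :
    (cols H L).card ≤ (cols H L').card := card_le_card (cols_mono h)

/-- deleting one colour of the list of `w` -/
theorem sum_delete (H : SimpleGraph W) (L : W → Finset ℕ) (w : W) :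
    ∑ a ∈ L w, (cols H (Function.update L w ((L w).erase a))).card =
      ((L w).card - 1) * (cols H L).card := by
  have h1 : ∀ a ∈ L w, (cols H (Function.update L w ((L w).erase a))).card =
      ∑ f ∈ cols H L, if f w ≠ a then 1 else 0 := by
    intro a _
    rw [← Finset.card_filter]
    congr 1
    ext f
    rw [mem_filter, mem_cols, mem_cols]
    constructor
    · rintro ⟨h1, h2⟩
      have hw := h1 w
      rw [Function.update_self, mem_erase] at hw
      refine ⟨⟨fun v => ?_, h2⟩, hw.1⟩
      by_cases hv : v = w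
      · subst hv; exact hw.2
      · have := h1 v
        rwa [Function.update_of_ne hv] at this
    · rintro ⟨⟨h1, h2⟩, h3⟩
      refine ⟨fun v => ?_, h2⟩
      by_cases hv : v = w
      · subst hv
        rw [Function.update_self, mem_erase]
        exact ⟨h3, h1 v⟩
      · rw [Function.update_of_ne hv]; exact h1 v
  rw [Finset.sum_congr rfl h1, Finset.sum_comm]
  have h2 : ∀ f ∈ cols H L, (∑ a ∈ L w, if f w ≠ a then 1 else 0) = (L w).card - 1 := by
    intro f hf
    rw [← Finset.card_filter]
    have : (L w).filter (fun a => f w ≠ a) = (L w).erase (f w) := by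
      ext a
      rw [mem_filter, mem_erase]
      constructor
      · rintro ⟨h, h'⟩; exact ⟨fun h'' => h' h''.symm, h⟩
      · rintro ⟨h, h'⟩; exact ⟨h', fun h'' => h h''.symm⟩
    rw [this, card_erase_of_mem ((mem_cols.1 hf).1 w)]
  rw [Finset.sum_congr rfl h2, Finset.sum_const, smul_eq_mul, mul_comm]

/-- the least number of proper colourings over all `m`-assignments -/
noncomputable def minCount (H : SimpleGraph W) (m : ℕ) : ℕ :=
  sInf {n : ℕ | ∃ L : W → Finset ℕ, (∀ w, (L w).card = m) ∧ n = (cols H L).card}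

theorem minCount_nonempty (H : SimpleGraph W) (m : ℕ) :
    {n : ℕ | ∃ L : W → Finset ℕ, (∀ w, (L w).card = m) ∧ n = (cols H L).card}.Nonempty :=
  ⟨_, fun _ => range m, fun _ => card_range m, rfl⟩

theorem exists_minimizer (H : SimpleGraph W) (m : ℕ) :
    ∃ L : W → Finset ℕ, (∀ w, (L w).card = m) ∧ minCount H m = (cols H L).card :=
  Nat.sInf_mem (minCount_nonempty H m)

theorem minCount_le (H : SimpleGraph W) (m : ℕ) (L : W → Finset ℕ) (hL : ∀ w, m ≤ (L w).card) :
    minCount H m ≤ (cols H L).card := by
  choose S hS hSc using fun w => Finset.exists_subset_card_eq (hL w)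
  calc minCount H m ≤ (cols H S).card := Nat.sInf_le ⟨S, hSc, rfl⟩
    _ ≤ (cols H L).card := card_cols_mono hS

/-- **Gain lemma.** If all lists have size at least `k` and those of the vertices in `B` have size
at least `k + 1`, then the number of colourings is at least `((k+1)/k)^|B|` times the minimum. -/
theorem gain (H : SimpleGraph W) (k : ℕ) (B : Finset W) : ∀ L : W → Finset ℕ,
    (∀ w, k ≤ (L w).card) → (∀ w ∈ B, k + 1 ≤ (L w).card) →
      (k + 1) ^ B.card * minCount H k ≤ k ^ B.card * (cols H L).card := by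
  induction B using Finset.induction_on with
  | empty =>
    intro L h1 _
    simpa using minCount_le H k L h1
  | insert w B hw ih =>
    intro L h1 h2
    obtain ⟨S, hS, hSc⟩ := Finset.exists_subset_card_eq (h2 w (mem_insert_self w B))
    set L1 := Function.update L w S with hL1
    have hle : (cols H L1).card ≤ (cols H L).card := by
      apply card_cols_mono
      intro v
      by_cases hv : v = w
      · subst hv; rw [hL1, Function.update_self]; exact hS
      · rw [hL1, Function.update_of_ne hv]
    have hself : L1 w = S := by rw [hL1, Function.update_self]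
    have hsum := sum_delete H L1 w
    rw [hself, hSc] at hsum
    have hterm : ∀ a ∈ S, (k + 1) ^ B.card * minCount H k ≤
        k ^ B.card * (cols H (Function.update L1 w (S.erase a))).card := by
      intro a ha
      apply ih
      · intro v
        by_cases hv : v = w
        · subst hv
          rw [Function.update_self, card_erase_of_mem ha, hSc]
          omega
        · rw [Function.update_of_ne hv, hL1, Function.update_of_ne hv]
          exact h1 v
      · intro v hv
        have hvw : v ≠ w := by rintro rfl; exact hw hv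
        rw [Function.update_of_ne hvw, hL1, Function.update_of_ne hvw]
        exact h2 v (mem_insert_of_mem hv)
    have := Finset.sum_le_sum hterm
    rw [Finset.sum_const, hSc, smul_eq_mul, ← Finset.mul_sum, hsum] at this
    rw [card_insert_of_notMem hw, pow_succ, pow_succ]
    calc (k + 1) ^ B.card * (k + 1) * minCount H k
        = (k + 1) * ((k + 1) ^ B.card * minCount H k) := by ring
      _ ≤ k ^ B.card * ((k + 1 - 1) * (cols H L1).card) := this
      _ = k ^ B.card * k * (cols H L1).card := by rw [Nat.add_sub_cancel]; ring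
      _ ≤ k ^ B.card * k * (cols H L).card := Nat.mul_le_mul_left _ hle

/-- linear form of the gain lemma -/
theorem gain_linear (H : SimpleGraph W) (k : ℕ) (hk : 1 ≤ k) (B : Finset W) (L : W → Finset ℕ)
    (h1 : ∀ w, k ≤ (L w).card) (h2 : ∀ w ∈ B, k + 1 ≤ (L w).card) :
    (k + B.card) * minCount H k ≤ k * (cols H L).card := by
  have h := gain H k B L h1 h2
  have hpos : 0 < k ^ B.card := pow_pos (by omega) _
  have hb : (k + B.card) * k ^ B.card ≤ k * (k + 1) ^ B.card := by
    have hk0 : (0 : ℝ) < k := by exact_mod_cast hk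
    have hB := one_add_mul_le_pow (a := (1 : ℝ) / k) (by
      have : (0 : ℝ) ≤ 1 / k := by positivity
      linarith) B.card
    have h3 : ((k : ℝ) + B.card) * k ^ B.card ≤ k * (k + 1) ^ B.card := by
      have e1 : ((k : ℝ) + B.card) * k ^ B.card = (1 + B.card * (1 / k)) * (k * k ^ B.card) := by
        field_simp
      have e2 : (k : ℝ) * (k + 1) ^ B.card = (1 + 1 / (k : ℝ)) ^ B.card * (k * k ^ B.card) := by
        have : (1 + 1 / (k : ℝ)) = (k + 1) / k := by field_simp
        rw [this, div_pow]
        field_simp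
      rw [e1, e2]
      exact mul_le_mul_of_nonneg_right hB (by positivity)
    exact_mod_cast h3
  refine Nat.le_of_mul_le_mul_left (?_ : k ^ B.card * ((k + B.card) * minCount H k) ≤
    k ^ B.card * (k * (cols H L).card)) hpos
  calc k ^ B.card * ((k + B.card) * minCount H k)
      = ((k + B.card) * k ^ B.card) * minCount H k := by ring
    _ ≤ (k * (k + 1) ^ B.card) * minCount H k := Nat.mul_le_mul_right _ hb
    _ = k * ((k + 1) ^ B.card * minCount H k) := by ring
    _ ≤ k * (k ^ B.card * (cols H L).card) := Nat.mul_le_mul_left _ h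
    _ = k ^ B.card * (k * (cols H L).card) := by ring

/-! ### Constant lists -/

/-- the number of proper colourings with the colours `0, …, m-1` -/
noncomputable def N (H : SimpleGraph W) (m : ℕ) : ℕ := (cols H (fun _ => range m)).card

theorem card_const_le (H : SimpleGraph W) (A B : Finset ℕ) (h : A.card = B.card) :
    (cols H (fun _ => A)).card ≤ (cols H (fun _ => B)).card := by
  obtain ⟨e⟩ : Nonempty (A ≃ B) := ⟨Finset.equivOfCardEq h⟩
  set φ : ℕ → ℕ := fun x => if hx : x ∈ A then (e ⟨x, hx⟩ : ℕ) else 0 with hφ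
  have hφv : ∀ x (hx : x ∈ A), φ x = e ⟨x, hx⟩ := fun x hx => by simp only [hφ, dif_pos hx]
  have hinj : ∀ x ∈ A, ∀ y ∈ A, φ x = φ y → x = y := by
    intro x hx y hy hxy
    rw [hφv x hx, hφv y hy] at hxy
    have := e.injective (Subtype.ext hxy)
    exact congrArg Subtype.val this
  apply Finset.card_le_card_of_injOn (fun f => φ ∘ f)
  · intro f hf
    have hf' := mem_cols.1 (Finset.mem_coe.1 hf)
    refine Finset.mem_coe.2 (mem_cols.2 ⟨fun w => ?_, fun x y hxy heq => ?_⟩)
    · show φ (f w) ∈ B
      rw [hφv _ (hf'.1 w)]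
      exact (e _).2
    · exact hf'.2 x y hxy (hinj _ (hf'.1 x) _ (hf'.1 y) heq)
  · intro f hf g hg hfg
    have hf' := mem_cols.1 (Finset.mem_coe.1 hf)
    have hg' := mem_cols.1 (Finset.mem_coe.1 hg)
    funext w
    exact hinj _ (hf'.1 w) _ (hg'.1 w) (congrFun hfg w)

theorem card_const (H : SimpleGraph W) (A : Finset ℕ) (m : ℕ) (h : A.card = m) :
    (cols H (fun _ => A)).card = N H m := by
  apply le_antisymm
  · exact card_const_le H _ _ (by rw [h, card_range])
  · exact card_const_le H _ _ (by rw [h, card_range])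

theorem minCount_le_N (H : SimpleGraph W) (m : ℕ) : minCount H m ≤ N H m :=
  minCount_le H m _ fun _ => (card_range m).ge

/-- a symmetry: with constant lists every colour is equally frequent at a vertex; the statement
is for any family of maps closed under permutations of the colours of `A` -/
theorem symm_count (A : Finset ℕ) (X : Finset (W → ℕ)) (hXA : ∀ f ∈ X, ∀ w, f w ∈ A)
    (hX : ∀ (π : Equiv.Perm ℕ), (∀ a, a ∈ A ↔ π a ∈ A) → ∀ f ∈ X, (π ∘ f) ∈ X)
    (w : W) (a : ℕ) (ha : a ∈ A) :
    A.card * (X.filter (fun f => f w = a)).card = X.card := by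
  have h1 : X.card = ∑ b ∈ A, (X.filter (fun f => f w = b)).card :=
    Finset.card_eq_sum_card_fiberwise (fun f hf => hXA f hf w)
  have h2 : ∀ b ∈ A, (X.filter (fun f => f w = b)).card = (X.filter (fun f => f w = a)).card := by
    intro b hb
    have hswap : ∀ c, c ∈ A ↔ (Equiv.swap a b) c ∈ A := by
      intro c
      by_cases hca : c = a
      · subst hca; rw [Equiv.swap_apply_left]; exact ⟨fun _ => hb, fun _ => ha⟩
      · by_cases hcb : c = b
        · subst hcb; rw [Equiv.swap_apply_right]; exact ⟨fun _ => ha, fun _ => hb⟩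
        · rw [Equiv.swap_apply_of_ne_of_ne hca hcb]
    have hcomp : ∀ f : W → ℕ, (Equiv.swap a b) ∘ ((Equiv.swap a b) ∘ f) = f := by
      intro f; funext v; simp
    apply Finset.card_nbij' (fun f => (Equiv.swap a b) ∘ f) (fun f => (Equiv.swap a b) ∘ f)
    · intro f hf
      have hf' := mem_filter.1 (Finset.mem_coe.1 hf)
      refine Finset.mem_coe.2 (mem_filter.2 ⟨hX _ hswap f hf'.1, ?_⟩)
      simp [hf'.2]
    · intro f hf
      have hf' := mem_filter.1 (Finset.mem_coe.1 hf)
      refine Finset.mem_coe.2 (mem_filter.2 ⟨hX _ hswap f hf'.1, ?_⟩)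
      simp [hf'.2]
    · intro f _; exact hcomp f
    · intro f _; exact hcomp f
  rw [h1, Finset.sum_congr rfl h2, Finset.sum_const, smul_eq_mul]

/-- the number of members of a symmetric family that leave the lists `L` -/
theorem symm_bad (A : Finset ℕ) (X : Finset (W → ℕ)) (hXA : ∀ f ∈ X, ∀ w, f w ∈ A)
    (hX : ∀ (π : Equiv.Perm ℕ), (∀ a, a ∈ A ↔ π a ∈ A) → ∀ f ∈ X, (π ∘ f) ∈ X)
    (L : W → Finset ℕ) :
    A.card * (X.filter (fun f => ¬ ∀ w, f w ∈ L w)).card ≤ (∑ w, (A \ L w).card) * X.card := by
  have h1 : (X.filter (fun f => ¬ ∀ w, f w ∈ L w)).card ≤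
      ∑ w, ∑ a ∈ A \ L w, (X.filter (fun f => f w = a)).card := by
    have hsub : X.filter (fun f => ¬ ∀ w, f w ∈ L w) ⊆
        (univ : Finset W).biUnion (fun w => (A \ L w).biUnion
          (fun a => X.filter (fun f => f w = a))) := by
      intro f hf
      rw [mem_filter] at hf
      push Not at hf
      obtain ⟨hfX, w, hw⟩ := hf
      rw [mem_biUnion]
      refine ⟨w, mem_univ _, ?_⟩
      rw [mem_biUnion]
      exact ⟨f w, mem_sdiff.2 ⟨hXA f hfX w, hw⟩, mem_filter.2 ⟨hfX, rfl⟩⟩
    refine (card_le_card hsub).trans (card_biUnion_le.trans ?_)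
    exact Finset.sum_le_sum fun w _ => card_biUnion_le
  calc A.card * (X.filter (fun f => ¬ ∀ w, f w ∈ L w)).card
      ≤ A.card * ∑ w, ∑ a ∈ A \ L w, (X.filter (fun f => f w = a)).card :=
        Nat.mul_le_mul_left _ h1
    _ = ∑ w, ∑ a ∈ A \ L w, A.card * (X.filter (fun f => f w = a)).card := by
        rw [Finset.mul_sum]
        exact Finset.sum_congr rfl fun w _ => Finset.mul_sum _ _ _
    _ = ∑ w, ∑ a ∈ A \ L w, X.card := by
        refine Finset.sum_congr rfl fun w _ => Finset.sum_congr rfl fun a ha => ?_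
        exact symm_count A X hXA hX w a (mem_sdiff.1 ha).1
    _ = (∑ w, (A \ L w).card) * X.card := by
        rw [Finset.sum_mul]
        refine Finset.sum_congr rfl fun w _ => ?_
        rw [Finset.sum_const, smul_eq_mul]

theorem cols_const_symm (H : SimpleGraph W) (A : Finset ℕ) (π : Equiv.Perm ℕ)
    (hπ : ∀ a, a ∈ A ↔ π a ∈ A) (f : W → ℕ) (hf : f ∈ cols H (fun _ => A)) :
    (π ∘ f) ∈ cols H (fun _ => A) := by
  rw [mem_cols] at hf ⊢
  exact ⟨fun w => (hπ _).1 (hf.1 w), fun x y hxy h => hf.2 x y hxy (π.injective h)⟩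

end Pool.Agent.Q274.LCF
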