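import Pool.Agent.Q274.LCF.Basic

set_option autoImplicit false
set_option linter.unusedSectionVars false

/-!
# Donner's theorem for graphs with a universal vertex
-/

namespace Pool.Agent.Q274.LCF

open Finset
open scoped Classical

variable {W : Type} [Fintype W]

theorem prod_two (x y : W) (hxy : x ≠ y) (m : ℕ) (g : W → ℕ) (hx : g x = 1) (hy : g y = 1)
    (h : ∀ w, w ≠ x → w ≠ y → g w = m) : m ^ 2 * ∏ w, g w = m ^ Fintype.card W := by
  have h1 : ∏ w, ((if w = x then m else 1) * (if w = y then m else 1) * g w) =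
      m ^ Fintype.card W := by
    rw [← Finset.card_univ, ← Finset.prod_const]
    refine Finset.prod_congr rfl fun w _ => ?_
    by_cases h1 : w = x
    · subst h1; simp [hx, hxy]
    · by_cases h2 : w = y
      · subst h2; simp [hy, h1]
      · simp [h1, h2, h w h1 h2]
  rw [Finset.prod_mul_distrib, Finset.prod_mul_distrib, Finset.prod_ite_eq',
    Finset.prod_ite_eq'] at h1
  simpa [pow_two] using h1

/-- number of functions with two prescribed values -/
theorem card_two (L : W → Finset ℕ) (m : ℕ) (hL : ∀ w, (L w).card = m) (x y : W) (hxy : x ≠ y)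
    (a b : ℕ) (ha : a ∈ L x) (hb : b ∈ L y) :
    m ^ 2 * ((Fintype.piFinset L).filter (fun f => f x = a ∧ f y = b)).card =
      m ^ Fintype.card W := by
  have h1 : (Fintype.piFinset L).filter (fun f => f x = a ∧ f y = b) =
      Fintype.piFinset (Function.update (Function.update L x {a}) y {b}) := by
    ext f
    rw [mem_filter, Fintype.mem_piFinset, Fintype.mem_piFinset]
    constructor
    · rintro ⟨h1, h2, h3⟩ w
      by_cases hwy : w = y
      · subst hwy; rw [Function.update_self]; simpa using h3
      · rw [Function.update_of_ne hwy]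
        by_cases hwx : w = x
        · subst hwx; rw [Function.update_self]; simpa using h2
        · rw [Function.update_of_ne hwx]; exact h1 w
    · intro h
      have hy := h y
      rw [Function.update_self, mem_singleton] at hy
      have hx := h x
      rw [Function.update_of_ne hxy, Function.update_self, mem_singleton] at hx
      refine ⟨fun w => ?_, hx, hy⟩
      by_cases hwy : w = y
      · subst hwy; rw [hy]; exact hb
      · by_cases hwx : w = x
        · subst hwx; rw [hx]; exact ha
        · have := h w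
          rwa [Function.update_of_ne hwy, Function.update_of_ne hwx] at this
  rw [h1, Fintype.card_piFinset]
  apply prod_two x y hxy
  · rw [Function.update_of_ne hxy, Function.update_self, card_singleton]
  · rw [Function.update_self, card_singleton]
  · intro w hwx hwy
    rw [Function.update_of_ne hwy, Function.update_of_ne hwx]
    exact hL w

/-- number of functions that are monochromatic on a pair -/
theorem card_mono (L : W → Finset ℕ) (m : ℕ) (hL : ∀ w, (L w).card = m) (x y : W)
    (hxy : x ≠ y) :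
    m ^ 2 * ((Fintype.piFinset L).filter (fun f => f x = f y)).card =
      (L x ∩ L y).card * m ^ Fintype.card W := by
  have h1 : ((Fintype.piFinset L).filter (fun f => f x = f y)).card =
      ∑ a ∈ L x ∩ L y, ((Fintype.piFinset L).filter (fun f => f x = a ∧ f y = a)).card := by
    rw [Finset.card_eq_sum_card_fiberwise (f := fun f : W → ℕ => f x) (t := L x ∩ L y)]
    · refine Finset.sum_congr rfl fun a _ => ?_
      congr 1
      ext f
      simp only [mem_filter]
      constructor
      · rintro ⟨⟨h1, h2⟩, h3⟩; exact ⟨h1, h3, h2 ▸ h3⟩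
      · rintro ⟨h1, h2, h3⟩; exact ⟨⟨h1, h2.trans h3.symm⟩, h2⟩
    · intro f hf
      have hf' := mem_filter.1 (Finset.mem_coe.1 hf)
      have h3 := Fintype.mem_piFinset.1 hf'.1
      refine Finset.mem_coe.2 (mem_inter.2 ⟨h3 x, ?_⟩)
      show f x ∈ L y
      rw [hf'.2]; exact h3 y
  rw [h1, Finset.mul_sum]
  rw [Finset.sum_congr rfl (fun a ha => card_two L m hL x y hxy a a (mem_inter.1 ha).1
    (mem_inter.1 ha).2), Finset.sum_const, smul_eq_mul]

/-- number of functions that are monochromatic on two different pairs -/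
theorem card_mono_mono (A : Finset ℕ) (m : ℕ) (hA : A.card = m) (hm : 0 < m) (x y z w : W)
    (hxy : x ≠ y) (hzw : z ≠ w) (hz : z ≠ x) (hz' : z ≠ y) :
    m ^ 2 * ((Fintype.piFinset (fun _ : W => A)).filter (fun f => f x = f y ∧ f z = f w)).card ≤
      m ^ Fintype.card W := by
  obtain ⟨c0, hc0⟩ : A.Nonempty := by rw [← Finset.card_pos, hA]; exact hm
  set g : W → Finset ℕ := Function.update (Function.update (fun _ => A) z {c0}) x {c0} with hg
  have hgc : m ^ 2 * (Fintype.piFinset g).card = m ^ Fintype.card W := by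
    rw [Fintype.card_piFinset]
    apply prod_two z x hz
    · rw [hg, Function.update_of_ne hz, Function.update_self, card_singleton]
    · rw [hg, Function.update_self, card_singleton]
    · intro w hwz hwx
      rw [hg, Function.update_of_ne hwx, Function.update_of_ne hwz]
      exact hA
  rw [← hgc]
  apply Nat.mul_le_mul_left
  apply Finset.card_le_card_of_injOn
    (fun f : W → ℕ => Function.update (Function.update f z c0) x c0)
  · intro f hf
    have hf' := mem_filter.1 (Finset.mem_coe.1 hf)
    refine Finset.mem_coe.2 (Fintype.mem_piFinset.2 fun v => ?_)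
    show Function.update (Function.update f z c0) x c0 v ∈ g v
    by_cases hvx : v = x
    · subst hvx; rw [hg, Function.update_self, Function.update_self]; simp
    · rw [hg, Function.update_of_ne hvx, Function.update_of_ne hvx]
      by_cases hvz : v = z
      · subst hvz; rw [Function.update_self, Function.update_self]; simp
      · rw [Function.update_of_ne hvz, Function.update_of_ne hvz]
        exact Fintype.mem_piFinset.1 hf'.1 v
  · intro f hf g' hg' hfg
    have hf' := (mem_filter.1 (Finset.mem_coe.1 hf)).2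
    have hg'' := (mem_filter.1 (Finset.mem_coe.1 hg')).2
    have key : ∀ v, v ≠ x → v ≠ z → f v = g' v := by
      intro v hvx hvz
      have := congrFun hfg v
      simpa [Function.update_of_ne hvx, Function.update_of_ne hvz] using this
    have hyv : f y = g' y := key y hxy.symm hz'.symm
    have hxv : f x = g' x := by rw [hf'.1, hg''.1, hyv]
    have hwv : f w = g' w := by
      by_cases hwx : w = x
      · rw [hwx]; exact hxv
      · exact key w hwx hzw.symm
    have hzv : f z = g' z := by rw [hf'.2, hg''.2, hwv]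
    funext v
    by_cases hvx : v = x
    · rw [hvx]; exact hxv
    · by_cases hvz : v = z
      · rw [hvz]; exact hzv
      · exact key v hvx hvz

/-- ordered adjacent pairs -/
noncomputable def pairs (H : SimpleGraph W) : Finset (W × W) :=
  univ.filter (fun p => H.Adj p.1 p.2)

noncomputable def monoSet (H : SimpleGraph W) (f : W → ℕ) : Finset (W × W) :=
  (pairs H).filter (fun p => f p.1 = f p.2)

theorem mem_pairs {H : SimpleGraph W} {p : W × W} : p ∈ pairs H ↔ H.Adj p.1 p.2 := by
  simp [pairs]

theorem mem_monoSet {H : SimpleGraph W} {f : W → ℕ} {p : W × W} :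
    p ∈ monoSet H f ↔ H.Adj p.1 p.2 ∧ f p.1 = f p.2 := by
  rw [monoSet, mem_filter, mem_pairs]

theorem monoSet_card (H : SimpleGraph W) (f : W → ℕ) :
    (monoSet H f).card = (if (monoSet H f).card = 0 then 0 else 2) + ((monoSet H f).card - 2) := by
  by_cases h : (monoSet H f).card = 0
  · rw [if_pos h, h]
  · rw [if_neg h]
    have h2 : 2 ≤ (monoSet H f).card := by
      obtain ⟨p, hp⟩ := Finset.card_ne_zero.1 h
      have hp' := mem_monoSet.1 hp
      have hsub : {p, p.swap} ⊆ monoSet H f := by
        intro q hq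
        rw [mem_insert, mem_singleton] at hq
        rcases hq with rfl | rfl
        · exact hp
        · exact mem_monoSet.2 ⟨hp'.1.symm, hp'.2.symm⟩
      have hne : p ≠ p.swap := by
        intro h'
        have := congrArg Prod.fst h'
        exact hp'.1.ne this
      calc 2 = ({p, p.swap} : Finset (W × W)).card := (card_pair hne).symm
        _ ≤ _ := card_le_card hsub
    omega

/-- pairs of adjacent pairs spanning at least three vertices -/
noncomputable def quads (H : SimpleGraph W) : Finset ((W × W) × (W × W)) :=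
  ((pairs H) ×ˢ (pairs H)).filter (fun q =>
    (q.2.1 ≠ q.1.1 ∧ q.2.1 ≠ q.1.2) ∨ (q.2.2 ≠ q.1.1 ∧ q.2.2 ≠ q.1.2))

theorem mem_quads {H : SimpleGraph W} {q : (W × W) × (W × W)} : q ∈ quads H ↔
    (H.Adj q.1.1 q.1.2 ∧ H.Adj q.2.1 q.2.2) ∧
    ((q.2.1 ≠ q.1.1 ∧ q.2.1 ≠ q.1.2) ∨ (q.2.2 ≠ q.1.1 ∧ q.2.2 ≠ q.1.2)) := by
  rw [quads, mem_filter, mem_product, mem_pairs, mem_pairs]

/-- the excess is at most the number of monochromatic quads -/
theorem excess_le (H : SimpleGraph W) (f : W → ℕ) :
    (monoSet H f).card - 2 ≤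
      ((quads H).filter (fun q => f q.1.1 = f q.1.2 ∧ f q.2.1 = f q.2.2)).card := by
  rcases (monoSet H f).eq_empty_or_nonempty with h | ⟨p, hp⟩
  · rw [h]; simp
  · have hp' := mem_monoSet.1 hp
    have h1 : (monoSet H f).card - 2 ≤ (((monoSet H f).erase p).erase p.swap).card := by
      have e1 := Finset.pred_card_le_card_erase (s := monoSet H f) (a := p)
      have e2 := Finset.pred_card_le_card_erase (s := (monoSet H f).erase p) (a := p.swap)
      omega
    refine h1.trans ?_
    apply Finset.card_le_card_of_injOn (fun q : W × W => (p, q))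
    · intro q hq
      have hq' := Finset.mem_coe.1 hq
      rw [mem_erase, mem_erase] at hq'
      obtain ⟨hq1, hq2, hq3⟩ := hq'
      have hq4 := mem_monoSet.1 hq3
      refine Finset.mem_coe.2 (mem_filter.2 ⟨mem_quads.2 ⟨⟨hp'.1, hq4.1⟩, ?_⟩, hp'.2, hq4.2⟩)
      show (q.1 ≠ p.1 ∧ q.1 ≠ p.2) ∨ (q.2 ≠ p.1 ∧ q.2 ≠ p.2)
      by_contra hc
      push Not at hc
      obtain ⟨hc1, hc2⟩ := hc
      by_cases h3 : q.1 = p.1
      · by_cases h4 : q.2 = p.1
        · exact hq4.1.ne (h3.trans h4.symm)
        · exact hq2 (Prod.ext h3 (hc2 h4))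
      · have h5 := hc1 h3
        by_cases h4 : q.2 = p.1
        · exact hq1 (Prod.ext h5 h4)
        · exact hq4.1.ne (h5.trans (hc2 h4).symm)
    · intro q _ q' _ h
      exact (Prod.ext_iff.1 h).2

theorem card_quad (H : SimpleGraph W) (A : Finset ℕ) (m : ℕ) (hA : A.card = m) (hm : 0 < m)
    (q : (W × W) × (W × W)) (hq : q ∈ quads H) :
    m ^ 2 * ((Fintype.piFinset (fun _ : W => A)).filter
      (fun f => f q.1.1 = f q.1.2 ∧ f q.2.1 = f q.2.2)).card ≤ m ^ Fintype.card W := by
  obtain ⟨⟨h1, h2⟩, h3⟩ := mem_quads.1 hq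
  rcases h3 with h3 | h3
  · exact card_mono_mono A m hA hm _ _ _ _ h1.ne h2.ne h3.1 h3.2
  · have := card_mono_mono A m hA hm q.1.1 q.1.2 q.2.2 q.2.1 h1.ne h2.ne.symm h3.1 h3.2
    refine le_trans (Nat.mul_le_mul_left _ (card_le_card ?_)) this
    intro f hf
    rw [mem_filter] at hf ⊢
    exact ⟨hf.1, hf.2.1, hf.2.2.symm⟩

theorem cols_eq (H : SimpleGraph W) (L : W → Finset ℕ) :
    cols H L = (Fintype.piFinset L).filter (fun f => (monoSet H f).card = 0) := by
  ext f
  rw [mem_cols, mem_filter, Fintype.mem_piFinset, Finset.card_eq_zero]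
  refine and_congr_right fun _ => ?_
  constructor
  · intro h
    rw [Finset.eq_empty_iff_forall_notMem]
    intro p hp
    obtain ⟨h1, h2⟩ := mem_monoSet.1 hp
    exact h _ _ h1 h2
  · intro h x y hxy heq
    have : (x, y) ∈ monoSet H f := mem_monoSet.2 ⟨hxy, heq⟩
    rw [h] at this
    simp at this

/-- twice the number of non-proper functions, and the excess -/
theorem bad_identity (H : SimpleGraph W) (L : W → Finset ℕ) :
    2 * ((Fintype.piFinset L).card - (cols H L).card) +
      ∑ f ∈ Fintype.piFinset L, ((monoSet H f).card - 2) =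
    ∑ p ∈ pairs H, ((Fintype.piFinset L).filter (fun f => f p.1 = f p.2)).card := by
  have h1 : ∑ p ∈ pairs H, ((Fintype.piFinset L).filter (fun f => f p.1 = f p.2)).card =
      ∑ f ∈ Fintype.piFinset L, (monoSet H f).card := by
    simp only [Finset.card_filter, monoSet]
    rw [Finset.sum_comm]
  rw [h1, Finset.sum_congr rfl (fun f _ => monoSet_card H f), Finset.sum_add_distrib]
  congr 1
  have h2 : (Fintype.piFinset L).card - (cols H L).card =
      ((Fintype.piFinset L).filter (fun f => ¬ (monoSet H f).card = 0)).card := by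
    rw [cols_eq, ← Finset.card_filter_add_card_filter_not (s := Fintype.piFinset L)
      (fun f => (monoSet H f).card = 0)]
    omega
  rw [h2, Finset.card_filter, Finset.mul_sum]
  refine Finset.sum_congr rfl fun f _ => ?_
  by_cases h : (monoSet H f).card = 0
  · simp [h]
  · simp [h]

/-- **Donner's theorem** for graphs with a universal vertex, with an explicit bound. -/
theorem donner (H : SimpleGraph W) (u : W) (hu : ∀ w, w ≠ u → H.Adj u w) (m : ℕ) (hm0 : 0 < m)
    (hm : (quads H).card ≤ m) (L : W → Finset ℕ) (hL : ∀ w, (L w).card = m) :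
    N H m ≤ (cols H L).card := by
  set A := L u with hAdef
  have hA : A.card = m := hL u
  rw [← card_const H A m hA]
  set n := Fintype.card W with hn
  set T := ∑ w, (A \ L w).card with hT
  set ΩA := Fintype.piFinset (fun _ : W => A) with hΩA
  set ΩL := Fintype.piFinset L with hΩL
  have cA : ΩA.card = m ^ n := by
    rw [hΩA, Fintype.card_piFinset, Finset.prod_const, Finset.card_univ, hA]
  have cL : ΩL.card = m ^ n := by
    rw [hΩL, Fintype.card_piFinset, Finset.prod_congr rfl (fun w _ => hL w), Finset.prod_const,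
      Finset.card_univ]
  have bA := bad_identity H (fun _ => A)
  have bL := bad_identity H L
  rw [← hΩA] at bA
  rw [← hΩL] at bL
  have colA : (cols H (fun _ => A)).card ≤ m ^ n := by
    rw [← cA, cols_eq]; exact card_le_card (filter_subset _ _)
  have colL : (cols H L).card ≤ m ^ n := by
    rw [← cL, cols_eq]; exact card_le_card (filter_subset _ _)
  rw [cA] at bA
  rw [cL] at bL
  -- the excess comparison
  set Z := ∑ f ∈ ΩA.filter (fun f => ¬ ∀ w, f w ∈ L w), ((monoSet H f).card - 2) with hZ
  have hex : ∑ f ∈ ΩA, ((monoSet H f).card - 2) ≤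
      ∑ f ∈ ΩL, ((monoSet H f).card - 2) + Z := by
    rw [← Finset.sum_filter_add_sum_filter_not ΩA (fun f => ∀ w, f w ∈ L w)]
    apply Nat.add_le_add_right
    apply Finset.sum_le_sum_of_subset
    intro f hf
    exact Fintype.mem_piFinset.2 (mem_filter.1 hf).2
  have hZ1 : m ^ 3 * Z ≤ (quads H).card * T * m ^ n := by
    have h1 : Z ≤ ∑ q ∈ quads H, ((ΩA.filter
        (fun f => f q.1.1 = f q.1.2 ∧ f q.2.1 = f q.2.2)).filter
          (fun f => ¬ ∀ w, f w ∈ L w)).card := by
      calc Z ≤ ∑ f ∈ ΩA.filter (fun f => ¬ ∀ w, f w ∈ L w),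
            ((quads H).filter (fun q => f q.1.1 = f q.1.2 ∧ f q.2.1 = f q.2.2)).card :=
            Finset.sum_le_sum fun f _ => excess_le H f
        _ = _ := by
            simp only [Finset.card_filter]
            rw [Finset.sum_comm]
            refine Finset.sum_congr rfl fun q _ => ?_
            rw [Finset.sum_filter, Finset.sum_filter]
            refine Finset.sum_congr rfl fun f _ => ?_
            by_cases h1 : ∀ w, f w ∈ L w
            · simp [h1]
            · by_cases h2 : f q.1.1 = f q.1.2 ∧ f q.2.1 = f q.2.2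
              · simp [h1, h2]
              · simp [h1, h2]
    have h2 : ∀ q ∈ quads H, m ^ 3 * ((ΩA.filter
        (fun f => f q.1.1 = f q.1.2 ∧ f q.2.1 = f q.2.2)).filter
          (fun f => ¬ ∀ w, f w ∈ L w)).card ≤ T * m ^ n := by
      intro q hq
      have h3 := symm_bad A (ΩA.filter (fun f => f q.1.1 = f q.1.2 ∧ f q.2.1 = f q.2.2))
        (fun f hf w => Fintype.mem_piFinset.1 (mem_filter.1 hf).1 w)
        (fun π hπ f hf => by
          rw [mem_filter] at hf ⊢
          refine ⟨Fintype.mem_piFinset.2 fun w =>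
            (hπ _).1 (Fintype.mem_piFinset.1 hf.1 w), ?_, ?_⟩
          · simp [hf.2.1]
          · simp [hf.2.2]) L
      rw [hA] at h3
      have h4 := card_quad H A m hA hm0 q hq
      calc m ^ 3 * ((ΩA.filter (fun f => f q.1.1 = f q.1.2 ∧ f q.2.1 = f q.2.2)).filter
            (fun f => ¬ ∀ w, f w ∈ L w)).card
          = m ^ 2 * (m * ((ΩA.filter (fun f => f q.1.1 = f q.1.2 ∧ f q.2.1 = f q.2.2)).filter
            (fun f => ¬ ∀ w, f w ∈ L w)).card) := by ring
        _ ≤ m ^ 2 * (T * (ΩA.filter (fun f => f q.1.1 = f q.1.2 ∧ f q.2.1 = f q.2.2)).card) :=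
            Nat.mul_le_mul_left _ h3
        _ = T * (m ^ 2 * (ΩA.filter (fun f => f q.1.1 = f q.1.2 ∧
              f q.2.1 = f q.2.2)).card) := by ring
        _ ≤ T * m ^ n := Nat.mul_le_mul_left _ h4
    calc m ^ 3 * Z ≤ m ^ 3 * ∑ q ∈ quads H, ((ΩA.filter
        (fun f => f q.1.1 = f q.1.2 ∧ f q.2.1 = f q.2.2)).filter
          (fun f => ¬ ∀ w, f w ∈ L w)).card := Nat.mul_le_mul_left _ h1
      _ = ∑ q ∈ quads H, m ^ 3 * ((ΩA.filter
        (fun f => f q.1.1 = f q.1.2 ∧ f q.2.1 = f q.2.2)).filter
          (fun f => ¬ ∀ w, f w ∈ L w)).card := Finset.mul_sum _ _ _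
      _ ≤ ∑ q ∈ quads H, T * m ^ n := Finset.sum_le_sum h2
      _ = (quads H).card * T * m ^ n := by rw [Finset.sum_const, smul_eq_mul]; ring
  -- the main term
  have hD : ∑ p ∈ pairs H, m ^ 2 * (ΩL.filter (fun f => f p.1 = f p.2)).card + T * m ^ n ≤
      ∑ p ∈ pairs H, m ^ 2 * (ΩA.filter (fun f => f p.1 = f p.2)).card := by
    have h1 : ∀ p ∈ pairs H, m ^ 2 * (ΩL.filter (fun f => f p.1 = f p.2)).card +
        (L p.1 \ L p.2).card * m ^ n =
        m ^ 2 * (ΩA.filter (fun f => f p.1 = f p.2)).card := by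
      intro p hp
      have hp' := (mem_pairs.1 hp).ne
      rw [card_mono L m hL _ _ hp', card_mono (fun _ => A) m (fun _ => hA) _ _ hp']
      rw [inter_self, hA, ← add_mul]
      congr 1
      rw [← hL p.1, add_comm]
      exact Finset.card_sdiff_add_card_inter _ _
    rw [← Finset.sum_congr rfl h1, Finset.sum_add_distrib]
    apply Nat.add_le_add_left
    rw [← Finset.sum_mul]
    apply Nat.mul_le_mul_right
    have h2 : T = ∑ w ∈ univ.erase u, (A \ L w).card := by
      rw [hT, ← Finset.sum_erase_add univ _ (mem_univ u), hAdef]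
      simp
    rw [h2]
    have h3 : ∑ w ∈ univ.erase u, (A \ L w).card =
        ∑ p ∈ (univ.erase u).image (fun w => (u, w)), (L p.1 \ L p.2).card := by
      rw [Finset.sum_image]
      intro a _ b _ h
      exact (Prod.ext_iff.1 h).2
    rw [h3]
    apply Finset.sum_le_sum_of_subset
    intro p hp
    rw [mem_image] at hp
    obtain ⟨w, hw, rfl⟩ := hp
    rw [mem_erase] at hw
    exact mem_pairs.2 (hu w hw.1)
  rw [← Finset.mul_sum, ← Finset.mul_sum] at hD
  rw [← bA, ← bL] at hD
  -- conclusion
  set cA' := (cols H (fun _ => A)).card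
  set cL' := (cols H L).card
  set eA := ∑ f ∈ ΩA, ((monoSet H f).card - 2)
  set eL := ∑ f ∈ ΩL, ((monoSet H f).card - 2)
  by_contra hlt
  push Not at hlt
  have h5 : m ^ 3 * (2 * (m ^ n - cL') + eL) + m * (T * m ^ n) ≤
      m ^ 3 * (2 * (m ^ n - cA') + eA) := by
    have := Nat.mul_le_mul_left m hD
    calc _ = m * (m ^ 2 * (2 * (m ^ n - cL') + eL) + T * m ^ n) := by ring
      _ ≤ _ := this
      _ = _ := by ring
  have h6 : m ^ 3 * (2 * (m ^ n - cA') + eA) ≤ m ^ 3 * (2 * (m ^ n - cA') + eL) +
      (quads H).card * T * m ^ n := by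
    calc m ^ 3 * (2 * (m ^ n - cA') + eA) ≤ m ^ 3 * (2 * (m ^ n - cA') + (eL + Z)) :=
          Nat.mul_le_mul_left _ (Nat.add_le_add_left hex _)
      _ = m ^ 3 * (2 * (m ^ n - cA') + eL) + m ^ 3 * Z := by ring
      _ ≤ _ := Nat.add_le_add_left hZ1 _
  have h7 : (quads H).card * T * m ^ n ≤ m * (T * m ^ n) := by
    calc (quads H).card * T * m ^ n = (quads H).card * (T * m ^ n) := by ring
      _ ≤ _ := Nat.mul_le_mul_right _ hm
  have h8 : m ^ 3 * (2 * (m ^ n - cL') + eL) ≤ m ^ 3 * (2 * (m ^ n - cA') + eL) := by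
    omega
  have h9 := Nat.le_of_mul_le_mul_left h8 (pow_pos hm0 3)
  omega

end Pool.Agent.Q274.LCF
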