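import Pool.Agent.Q274.LCF.Donner

set_option autoImplicit false
set_option linter.unusedSectionVars false

/-!
# Joins with complete graphs
-/

namespace Pool.Agent.Q274.LCF

open Finset
open scoped Classical

variable {V : Type} [Fintype V]

/-- the join of `G` and `K_p` -/
def J (G : SimpleGraph V) (p : ℕ) : SimpleGraph (V ⊕ Fin p) where
  Adj x y := match x, y with
    | Sum.inl u, Sum.inl v => G.Adj u v
    | Sum.inl _, Sum.inr _ => True
    | Sum.inr _, Sum.inl _ => True
    | Sum.inr i, Sum.inr j => i ≠ j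
  symm := ⟨by
    intro x y h
    match x, y, h with
    | Sum.inl u, Sum.inl v, h => exact SimpleGraph.Adj.symm h
    | Sum.inl _, Sum.inr _, _ => trivial
    | Sum.inr _, Sum.inl _, _ => trivial
    | Sum.inr i, Sum.inr j, h => exact Ne.symm h⟩
  loopless := ⟨by
    intro x h
    match x, h with
    | Sum.inl u, h => exact G.loopless.irrefl u h
    | Sum.inr i, h => exact h rfl⟩

/-- the embedding of `V ⊕ Fin p` into `V ⊕ Fin (p + 1)` that misses `i` -/
def emb {p : ℕ} (i : Fin (p + 1)) : V ⊕ Fin p → V ⊕ Fin (p + 1) := Sum.map id i.succAbove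

/-- extension of a function by one value -/
def ext {p : ℕ} (i : Fin (p + 1)) (c : ℕ) (g : V ⊕ Fin p → ℕ) : V ⊕ Fin (p + 1) → ℕ :=
  Sum.elim (fun v => g (Sum.inl v)) (Fin.insertNth (α := fun _ => ℕ) i c (fun j => g (Sum.inr j)))

theorem ext_emb {p : ℕ} (i : Fin (p + 1)) (c : ℕ) (g : V ⊕ Fin p → ℕ) (w : V ⊕ Fin p) :
    ext i c g (emb i w) = g w := by
  rcases w with v | j
  · rfl
  · simp [ext, emb]

theorem ext_inr {p : ℕ} (i : Fin (p + 1)) (c : ℕ) (g : V ⊕ Fin p → ℕ) :
    ext i c g (Sum.inr i) = c := by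
  simp [ext]

theorem cases_emb {p : ℕ} (i : Fin (p + 1)) (x : V ⊕ Fin (p + 1)) :
    x = Sum.inr i ∨ ∃ w, x = emb i w := by
  rcases x with v | j
  · exact Or.inr ⟨Sum.inl v, rfl⟩
  · rcases Fin.eq_self_or_eq_succAbove i j with h | ⟨k, hk⟩
    · exact Or.inl (by rw [h])
    · exact Or.inr ⟨Sum.inr k, by simp [emb, hk]⟩

theorem J_adj_emb (G : SimpleGraph V) {p : ℕ} (i : Fin (p + 1)) (x y : V ⊕ Fin p) :
    (J G (p + 1)).Adj (emb i x) (emb i y) ↔ (J G p).Adj x y := by
  rcases x with u | j <;> rcases y with v | k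
  · exact Iff.rfl
  · exact Iff.rfl
  · exact Iff.rfl
  · show i.succAbove j ≠ i.succAbove k ↔ j ≠ k
    exact not_congr Fin.succAbove_right_inj

theorem J_adj_inr (G : SimpleGraph V) {p : ℕ} (i : Fin (p + 1)) (x : V ⊕ Fin p) :
    (J G (p + 1)).Adj (Sum.inr i) (emb i x) := by
  rcases x with u | j
  · trivial
  · show i ≠ i.succAbove j
    exact (Fin.succAbove_ne i j).symm

/-- **the recursion**: condition on the colour of `inr i` -/
theorem card_cols_succ (G : SimpleGraph V) (p : ℕ) (i : Fin (p + 1))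
    (L : V ⊕ Fin (p + 1) → Finset ℕ) :
    (cols (J G (p + 1)) L).card =
      ∑ c ∈ L (Sum.inr i), (cols (J G p) (fun w => (L (emb i w)).erase c)).card := by
  rw [Finset.card_eq_sum_card_fiberwise (f := fun f : V ⊕ Fin (p + 1) → ℕ => f (Sum.inr i))
    (t := L (Sum.inr i))]
  · refine Finset.sum_congr rfl fun c hc => ?_
    apply Finset.card_nbij' (fun f => fun w => f (emb i w)) (fun g => ext i c g)
    · intro f hf
      obtain ⟨hf1, hf2⟩ := mem_filter.1 (Finset.mem_coe.1 hf)
      rw [mem_cols] at hf1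
      refine Finset.mem_coe.2 (mem_cols.2 ⟨fun w => ?_, fun x y hxy => ?_⟩)
      · rw [mem_erase]
        refine ⟨?_, hf1.1 _⟩
        rw [← hf2]
        exact (hf1.2 _ _ (J_adj_inr G i w)).symm
      · exact hf1.2 _ _ ((J_adj_emb G i x y).2 hxy)
    · intro g hg
      have hg' := mem_cols.1 (Finset.mem_coe.1 hg)
      refine Finset.mem_coe.2 (mem_filter.2 ⟨mem_cols.2 ⟨fun x => ?_, fun x y hxy => ?_⟩,
        ext_inr i c g⟩)
      · change ext i c g x ∈ L x
        rcases cases_emb i x with rfl | ⟨w, rfl⟩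
        · rw [ext_inr]; exact hc
        · rw [ext_emb]; exact (mem_erase.1 (hg'.1 w)).2
      · change ext i c g x ≠ ext i c g y
        rcases cases_emb i x with rfl | ⟨w, rfl⟩
        · rcases cases_emb i y with rfl | ⟨w', rfl⟩
          · exact absurd hxy (SimpleGraph.irrefl _)
          · rw [ext_inr, ext_emb]; exact (mem_erase.1 (hg'.1 w')).1.symm
        · rcases cases_emb i y with rfl | ⟨w', rfl⟩
          · rw [ext_inr, ext_emb]; exact (mem_erase.1 (hg'.1 w)).1
          · rw [ext_emb, ext_emb]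
            exact hg'.2 _ _ ((J_adj_emb G i w w').1 hxy)
    · intro f hf
      obtain ⟨hf1, hf2⟩ := mem_filter.1 (Finset.mem_coe.1 hf)
      funext x
      rcases cases_emb i x with rfl | ⟨w, rfl⟩
      · exact (ext_inr _ _ _).trans hf2.symm
      · exact ext_emb _ _ _ _
    · intro g _
      funext w
      exact ext_emb _ _ _ _
  · intro f hf
    exact Finset.mem_coe.2 ((mem_cols.1 (Finset.mem_coe.1 hf)).1 _)

theorem N_succ (G : SimpleGraph V) (p m : ℕ) :
    N (J G (p + 1)) (m + 1) = (m + 1) * N (J G p) m := by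
  unfold N
  rw [card_cols_succ G p 0]
  rw [Finset.sum_congr rfl (fun c hc => card_const (J G p) ((range (m + 1)).erase c) m (by
    rw [card_erase_of_mem hc, card_range]; rfl)), Finset.sum_const, card_range, smul_eq_mul]
  rfl

/-- equality of the list colour function and the chromatic polynomial, at `m` -/
def Eq1 (G : SimpleGraph V) (p m : ℕ) : Prop := N (J G p) m ≤ minCount (J G p) m

theorem Eq1.succ {G : SimpleGraph V} {p m : ℕ} (h : Eq1 G p m) : Eq1 G (p + 1) (m + 1) := by
  unfold Eq1 at h ⊢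
  obtain ⟨L, hL, hmin⟩ := exists_minimizer (J G (p + 1)) (m + 1)
  rw [hmin, card_cols_succ G p 0, N_succ]
  have h1 : ∀ c ∈ L (Sum.inr 0), N (J G p) m ≤
      (cols (J G p) (fun w => (L (emb 0 w)).erase c)).card := by
    intro c _
    refine h.trans (minCount_le _ _ _ fun w => ?_)
    have := Finset.pred_card_le_card_erase (s := L (emb 0 w)) (a := c)
    rw [hL] at this
    omega
  calc (m + 1) * N (J G p) m = ∑ c ∈ L (Sum.inr 0), N (J G p) m := by
        rw [Finset.sum_const, hL, smul_eq_mul]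
    _ ≤ _ := Finset.sum_le_sum h1

theorem Eq1.add {G : SimpleGraph V} {p m : ℕ} (h : Eq1 G p m) (t : ℕ) :
    Eq1 G (p + t) (m + t) := by
  induction t with
  | zero => exact h
  | succ t ih => exact ih.succ

/-- Donner's theorem for `G ∨ K_1` -/
theorem donner_J (G : SimpleGraph V) : ∃ M, ∀ m, M ≤ m → Eq1 G 1 m := by
  refine ⟨(quads (J G 1)).card + 1, fun m hm => ?_⟩
  unfold Eq1
  obtain ⟨L, hL, hmin⟩ := exists_minimizer (J G 1) m
  rw [hmin]
  refine donner (J G 1) (Sum.inr 0) (fun w hw => ?_) m (by omega) (by omega) L hL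
  rcases w with v | j
  · trivial
  · exact absurd (by rw [Subsingleton.elim j 0]) hw

end Pool.Agent.Q274.LCF
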