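import Pool.Agent.Q274.LCF.Ohba

set_option autoImplicit false
set_option linter.unusedSectionVars false

/-!
# For every `G`, all large joins with cliques are enumeratively chromatic-choosable
-/

namespace Pool.Agent.Q274.LCF

open Finset
open scoped Classical

variable {V : Type} [Fintype V]

/-- the gain inequality, summed over the colours of `inr i` -/
theorem gain_sum (G : SimpleGraph V) (p k : ℕ) (hk : 1 ≤ k) (i : Fin (p + 1))
    (L : V ⊕ Fin (p + 1) → Finset ℕ) (hL : ∀ w, (L w).card = k + 1) :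
    ((k + 1) * k + ∑ w, (L (Sum.inr i) \ L w).card) * minCount (J G p) k ≤
      k * (cols (J G (p + 1)) L).card := by
  rw [card_cols_succ G p i L, Finset.mul_sum]
  have h1 : ∀ c ∈ L (Sum.inr i),
      (k + (univ.filter (fun w : V ⊕ Fin p => c ∉ L (emb i w))).card) * minCount (J G p) k ≤
        k * (cols (J G p) (fun w => (L (emb i w)).erase c)).card := by
    intro c _
    apply gain_linear (J G p) k hk
    · intro w
      have := Finset.pred_card_le_card_erase (s := L (emb i w)) (a := c)
      rw [hL] at this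
      omega
    · intro w hw
      rw [Finset.erase_eq_of_notMem (mem_filter.1 hw).2, hL]
  refine le_trans (le_of_eq ?_) (Finset.sum_le_sum h1)
  rw [← Finset.sum_mul, Finset.sum_add_distrib, Finset.sum_const, hL, smul_eq_mul]
  congr 2
  have h2 : ∑ c ∈ L (Sum.inr i), (univ.filter (fun w : V ⊕ Fin p => c ∉ L (emb i w))).card =
      ∑ w : V ⊕ Fin p, (L (Sum.inr i) \ L (emb i w)).card := by
    simp only [Finset.card_filter]
    rw [Finset.sum_comm]
    refine Finset.sum_congr rfl fun w _ => ?_
    rw [← Finset.card_filter]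
    congr 1
    ext c
    rw [mem_filter, mem_sdiff]
  rw [h2, Fintype.sum_sum_type, Fintype.sum_sum_type, Fin.sum_univ_succAbove _ i]
  simp [emb]

theorem step (G : SimpleGraph V) (j p : ℕ) (hj : 1 ≤ j) (hp1 : j ≤ p)
    (hp2 : 2 * (Fintype.card V * j) ≤ p) (hnot : ¬ Eq1 G (p + 1) (p + 1 + j)) :
    (4 * (p + 1 + j) + 1) * minCount (J G p) (p + j) ≤
      4 * minCount (J G (p + 1)) (p + 1 + j) := by
  obtain ⟨L, hL, hmin⟩ := exists_minimizer (J G (p + 1)) (p + 1 + j)
  rw [hmin]
  have hL' : ∀ w, (L w).card = (p + j) + 1 := fun w => by rw [hL]; omega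
  have hgain := fun i => gain_sum G p (p + j) (by omega) i L hL'
  by_cases hcase : ∃ i : Fin (p + 1), p + 1 + j < 4 * ∑ w, (L (Sum.inr i) \ L w).card
  · obtain ⟨i, hi⟩ := hcase
    have h := hgain i
    set S := ∑ w, (L (Sum.inr i) \ L w).card
    set μ := minCount (J G p) (p + j)
    set c := (cols (J G (p + 1)) L).card
    have h1 : (p + j) * ((4 * (p + 1 + j) + 1) * μ) ≤ (p + j) * (4 * c) := by
      calc (p + j) * ((4 * (p + 1 + j) + 1) * μ)
          = (4 * ((p + j + 1) * (p + j)) + (p + j)) * μ := by ring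
        _ ≤ (4 * ((p + j + 1) * (p + j)) + 4 * S) * μ := by
            apply Nat.mul_le_mul_right
            apply Nat.add_le_add_left
            omega
        _ = 4 * (((p + j + 1) * (p + j) + S) * μ) := by ring
        _ ≤ 4 * ((p + j) * c) := Nat.mul_le_mul_left _ h
        _ = (p + j) * (4 * c) := by ring
    exact Nat.le_of_mul_le_mul_left h1 (by omega)
  · exfalso
    push Not at hcase
    -- all clique lists are equal
    have hcount : ∀ i : Fin (p + 1),
        (univ.filter (fun i' : Fin (p + 1) => L (Sum.inr i') ≠ L (Sum.inr i))).card ≤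
          ∑ w, (L (Sum.inr i) \ L w).card := by
      intro i
      rw [Fintype.sum_sum_type, Finset.card_filter]
      refine le_trans (Finset.sum_le_sum fun i' _ => ?_) (Nat.le_add_left _ _)
      split_ifs with h
      · rw [Nat.one_le_iff_ne_zero, Ne, Finset.card_eq_zero, Finset.sdiff_eq_empty_iff_subset]
        intro hsub
        exact h (Finset.eq_of_subset_of_card_le hsub (by rw [hL, hL])).symm
      · exact Nat.zero_le _
    have hall : ∀ i : Fin (p + 1), L (Sum.inr i) = L (Sum.inr 0) := by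
      intro i
      by_contra hne
      have h1 : (univ : Finset (Fin (p + 1))) ⊆
          univ.filter (fun i' : Fin (p + 1) => L (Sum.inr i') ≠ L (Sum.inr i)) ∪
          univ.filter (fun i' : Fin (p + 1) => L (Sum.inr i') ≠ L (Sum.inr 0)) := by
        intro i' _
        rw [mem_union, mem_filter, mem_filter]
        by_cases h : L (Sum.inr i') = L (Sum.inr i)
        · right
          exact ⟨mem_univ _, fun h' => hne (h ▸ h')⟩
        · exact Or.inl ⟨mem_univ _, h⟩
      have h2 := (card_le_card h1).trans (card_union_le _ _)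
      rw [Finset.card_univ, Fintype.card_fin] at h2
      have h3 := hcount i
      have h4 := hcount 0
      have h5 := hcase i
      have h6 := hcase 0
      omega
    have hT : Fintype.card V * j + ∑ v, (L (Sum.inr 0) \ L (Sum.inl v)).card ≤ p + 1 + j := by
      have h1 : ∑ v, (L (Sum.inr 0) \ L (Sum.inl v)).card ≤
          ∑ w, (L (Sum.inr 0) \ L w).card := by
        rw [Fintype.sum_sum_type]
        exact Nat.le_add_right _ _
      have h2 := hcase 0
      omega
    apply hnot
    unfold Eq1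
    rw [hmin]
    exact near G (p + 1) j hj (L (Sum.inr 0)) (hL _) L hL hall hT

theorem N_zero_of (G : SimpleGraph V) (j : ℕ) (h : N G j = 0) : N (J G 0) j = 0 := by
  by_contra hne
  obtain ⟨f, hf⟩ := Finset.card_pos.1 (Nat.pos_of_ne_zero hne)
  rw [mem_cols] at hf
  have : (fun v => f (Sum.inl v)) ∈ cols G (fun _ => range j) :=
    mem_cols.2 ⟨fun v => hf.1 _, fun x y hxy => hf.2 (Sum.inl x) (Sum.inl y) hxy⟩
  have h2 := Finset.card_pos.2 ⟨_, this⟩
  unfold N at h
  omega

theorem potential_arith (μ μ' N M a b : ℕ) (h1 : (4 * M + 1) * μ ≤ 4 * μ')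
    (h2 : b * M * N ^ 4 ≤ μ ^ 4 * a) : b * (M + 1) * (M * N) ^ 4 ≤ μ' ^ 4 * a := by
  have h3 : ((4 * M + 1) * μ) ^ 4 ≤ (4 * μ') ^ 4 := Nat.pow_le_pow_left h1 4
  have h4 : 256 * (b * (M + 1) * (M * N) ^ 4) ≤ 256 * (μ' ^ 4 * a) := by
    calc 256 * (b * (M + 1) * (M * N) ^ 4)
        = (256 * M ^ 4 * (M + 1)) * (b * N ^ 4) := by ring
      _ ≤ ((4 * M + 1) ^ 4 * M) * (b * N ^ 4) := by
          apply Nat.mul_le_mul_right
          have : (4 * M + 1) ^ 4 * M = 256 * M ^ 4 * (M + 1) + (96 * M ^ 3 + 16 * M ^ 2 + M) := by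
            ring
          omega
      _ = (4 * M + 1) ^ 4 * (b * M * N ^ 4) := by ring
      _ ≤ (4 * M + 1) ^ 4 * (μ ^ 4 * a) := Nat.mul_le_mul_left _ h2
      _ = ((4 * M + 1) * μ) ^ 4 * a := by ring
      _ ≤ (4 * μ') ^ 4 * a := Nat.mul_le_mul_right _ h3
      _ = 256 * (μ' ^ 4 * a) := by ring
  omega

theorem exists_eq (G : SimpleGraph V) [Nonempty V] (j : ℕ) : ∃ p, Eq1 G p (p + j) := by
  rcases Nat.eq_zero_or_pos (N G j) with hN | hN
  · refine ⟨0, ?_⟩
    unfold Eq1
    rw [Nat.zero_add, N_zero_of G j hN]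
    exact Nat.zero_le _
  · have hj : 1 ≤ j := by
      obtain ⟨f, hf⟩ := Finset.card_pos.1 hN
      obtain ⟨v⟩ := ‹Nonempty V›
      have := (mem_cols.1 hf).1 v
      rw [mem_range] at this
      omega
    by_contra hno
    push Not at hno
    set P := j + 2 * (Fintype.card V * j) + Fintype.card V ^ 2 with hP
    set μ : ℕ → ℕ := fun p => minCount (J G p) (p + j) with hμ
    set C : ℕ → ℕ := fun p => N (J G p) (p + j) with hC
    have hμpos : ∀ p, Fintype.card V ^ 2 ≤ p → 0 < μ p := by
      intro p hp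
      obtain ⟨L, hL, hmin⟩ := exists_minimizer (J G p) (p + j)
      simp only [hμ]
      rw [hmin]
      exact ohba G j p hN hp L hL
    have hμC : ∀ p, μ p ≤ C p := fun p => minCount_le_N _ _
    have hCs : ∀ p, C (p + 1) = (p + j + 1) * C p := by
      intro p
      simp only [hC]
      rw [← N_succ]
      congr 1
      omega
    have hstep : ∀ p, P ≤ p → (4 * (p + j + 1) + 1) * μ p ≤ 4 * μ (p + 1) := by
      intro p hp
      have := step G j p hj (by omega) (by omega) (hno (p + 1))
      simp only [hμ]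
      convert this using 2
      omega
    set a := (P + j + 1) * C P ^ 4 with ha
    have hpot : ∀ t, μ P ^ 4 * (P + t + j + 1) * C (P + t) ^ 4 ≤ μ (P + t) ^ 4 * a := by
      intro t
      induction t with
      | zero => rw [ha]; apply le_of_eq; simp only [Nat.add_zero]; ring
      | succ t ih =>
        have h1 := hstep (P + t) (by omega)
        have h2 := potential_arith _ _ _ _ _ _ h1 ih
        rw [← hCs] at h2
        calc μ P ^ 4 * (P + (t + 1) + j + 1) * C (P + (t + 1)) ^ 4
            = μ P ^ 4 * (P + t + j + 1 + 1) * C (P + t + 1) ^ 4 := by ring_nf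
          _ ≤ _ := h2
    have h1 := hpot a
    have h2 : μ (P + a) ^ 4 * a ≤ C (P + a) ^ 4 * a :=
      Nat.mul_le_mul_right _ (Nat.pow_le_pow_left (hμC _) 4)
    have h3 : 0 < C (P + a) ^ 4 :=
      pow_pos (lt_of_lt_of_le (hμpos (P + a) (by omega)) (hμC _)) 4
    have h4 : 1 ≤ μ P ^ 4 := Nat.one_le_pow _ _ (hμpos P (by omega))
    have h5 : (P + a + j + 1) * C (P + a) ^ 4 ≤ a * C (P + a) ^ 4 := by
      calc (P + a + j + 1) * C (P + a) ^ 4
          ≤ μ P ^ 4 * ((P + a + j + 1) * C (P + a) ^ 4) := Nat.le_mul_of_pos_left _ h4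
        _ = μ P ^ 4 * (P + a + j + 1) * C (P + a) ^ 4 := by ring
        _ ≤ μ (P + a) ^ 4 * a := h1
        _ ≤ C (P + a) ^ 4 * a := h2
        _ = a * C (P + a) ^ 4 := by ring
    have h6 := Nat.le_of_mul_le_mul_right h5 h3
    omega

/-- **Main theorem, counting form.** -/
theorem uniform (G : SimpleGraph V) [Nonempty V] :
    ∃ p0, ∀ p, p0 ≤ p → ∀ m, p ≤ m → Eq1 G p m := by
  obtain ⟨M, hM⟩ := donner_J G
  choose f hf using fun j => exists_eq G j
  refine ⟨1 + ∑ j ∈ range M, f j, fun p hp m hm => ?_⟩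
  by_cases hj : m - p < M
  · have h1 : f (m - p) ≤ ∑ j ∈ range M, f j :=
      Finset.single_le_sum (f := f) (fun _ _ => Nat.zero_le _) (mem_range.2 hj)
    have h2 := (hf (m - p)).add (p - f (m - p))
    have e1 : f (m - p) + (p - f (m - p)) = p := by omega
    have e2 : f (m - p) + (m - p) + (p - f (m - p)) = m := by omega
    rwa [e1, e2] at h2
  · have h2 := (hM (m - p + 1) (by omega)).add (p - 1)
    have e1 : 1 + (p - 1) = p := by omega
    have e2 : m - p + 1 + (p - 1) = m := by omega
    rwa [e1, e2] at h2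

end Pool.Agent.Q274.LCF
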