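import Pool.Agent.Q274.LCF.Join

set_option autoImplicit false
set_option linter.unusedSectionVars false

/-!
# List assignments that are nearly constant
-/

namespace Pool.Agent.Q274.LCF

open Finset
open scoped Classical

variable {V : Type} [Fintype V]

theorem near_arith (m n0 j T N g e c t : ℤ) (hn0 : 0 < n0) (hj : 0 < j)
    (hT : 0 ≤ T) (hN : 0 ≤ N) (hg : 0 ≤ g) (hmpos : 0 < m)
    (h1 : m * N ≤ m * g + T * N) (h2 : g * t ≤ j * e) (h3 : g + e ≤ c) (h4 : T ≤ n0 * t)
    (h5 : n0 * j + T ≤ m) : N ≤ c := by
  have hpos : 0 < n0 * j * m := by positivity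
  have s1 : n0 * j * m * (g + e) ≤ n0 * j * m * c := mul_le_mul_of_nonneg_left h3 hpos.le
  have s2 : n0 * m * (g * t) ≤ n0 * m * (j * e) := mul_le_mul_of_nonneg_left h2 (by positivity)
  have s3 : m * g * T ≤ m * g * (n0 * t) := mul_le_mul_of_nonneg_left h4 (by positivity)
  have s4 : (m * N - T * N) * (n0 * j + T) ≤ (m * g) * (n0 * j + T) :=
    mul_le_mul_of_nonneg_right (by linarith) (by positivity)
  have s5 : 0 ≤ N * (T * (m - (n0 * j + T))) :=
    mul_nonneg hN (mul_nonneg hT (by linarith))
  have s6 : n0 * j * m * N ≤ n0 * j * m * c := by nlinarith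
  exact le_of_mul_le_mul_left s6 hpos

theorem near_arith_nat (m n0 j T N g e c t : ℕ) (hn0 : 0 < n0) (hj : 0 < j) (hmpos : 0 < m)
    (h1 : m * N ≤ m * g + T * N) (h2 : g * t ≤ j * e) (h3 : g + e ≤ c) (h4 : T ≤ n0 * t)
    (h5 : n0 * j + T ≤ m) : N ≤ c := by
  have := near_arith m n0 j T N g e c t (by exact_mod_cast hn0) (by exact_mod_cast hj)
    (by positivity) (by positivity) (by positivity) (by exact_mod_cast hmpos)
    (by exact_mod_cast h1) (by exact_mod_cast h2) (by exact_mod_cast h3) (by exact_mod_cast h4)
    (by exact_mod_cast h5)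
  exact_mod_cast this

theorem near (G : SimpleGraph V) (q j : ℕ) (hj : 1 ≤ j) (A : Finset ℕ) (hA : A.card = q + j)
    (L : V ⊕ Fin q → Finset ℕ) (hL : ∀ w, (L w).card = q + j)
    (hK : ∀ i, L (Sum.inr i) = A)
    (hT : Fintype.card V * j + ∑ v, (A \ L (Sum.inl v)).card ≤ q + j) :
    N (J G q) (q + j) ≤ (cols (J G q) L).card := by
  rw [← card_const (J G q) A (q + j) hA]
  set X := cols (J G q) (fun _ => A) with hX
  set T := ∑ v, (A \ L (Sum.inl v)).card with hTdef
  have hsum : ∑ w, (A \ L w).card = T := by
    rw [Fintype.sum_sum_type, hTdef]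
    simp [hK]
  have hbad := symm_bad A X (fun f hf w => (mem_cols.1 hf).1 w)
    (fun π hπ f hf => cols_const_symm _ A π hπ f hf) L
  rw [hsum, hA] at hbad
  set Good := X.filter (fun f => ∀ w, f w ∈ L w) with hGood
  have hsplit : Good.card + (X.filter (fun f => ¬ ∀ w, f w ∈ L w)).card = X.card :=
    Finset.card_filter_add_card_filter_not _
  have hGoodsub : Good ⊆ cols (J G q) L := by
    intro f hf
    obtain ⟨h1, h2⟩ := mem_filter.1 hf
    exact mem_cols.2 ⟨h2, (mem_cols.1 h1).2⟩
  rcases Nat.eq_zero_or_pos T with hT0 | hTpos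
  · rw [hT0, Nat.zero_mul] at hbad
    have : (X.filter (fun f => ¬ ∀ w, f w ∈ L w)).card = 0 := by
      rcases Nat.mul_eq_zero.1 (Nat.le_zero.1 hbad) with h | h
      · omega
      · exact h
    rw [← hsplit, this, Nat.add_zero]
    exact card_le_card hGoodsub
  · -- a vertex with the largest deficiency
    have hVne : (univ : Finset V).Nonempty := by
      rw [Finset.nonempty_iff_ne_empty]
      intro h
      rw [hTdef, h, Finset.sum_empty] at hTpos
      omega
    obtain ⟨v0, _, hv0⟩ := Finset.exists_max_image univ (fun v => (A \ L (Sum.inl v)).card) hVne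
    set t := (A \ L (Sum.inl v0)).card with ht
    have hTt : T ≤ Fintype.card V * t := by
      rw [hTdef, ← Finset.card_univ, ← smul_eq_mul, ← Finset.sum_const]
      exact Finset.sum_le_sum fun v hv => hv0 v hv
    have ht' : (L (Sum.inl v0) \ A).card = t := by
      rw [ht]
      have e1 := Finset.card_sdiff_add_card_inter (L (Sum.inl v0)) A
      have e2 := Finset.card_sdiff_add_card_inter A (L (Sum.inl v0))
      rw [inter_comm] at e2
      rw [hL] at e1
      rw [hA] at e2
      omega
    set F : (V ⊕ Fin q → ℕ) × ℕ → (V ⊕ Fin q → ℕ) :=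
      fun x => Function.update x.1 (Sum.inl v0) x.2 with hF
    set S := Good ×ˢ (L (Sum.inl v0) \ A) with hS
    have hgood : ∀ f ∈ Good, (∀ w, f w ∈ A) ∧ (∀ w, f w ∈ L w) ∧
        (∀ x y, (J G q).Adj x y → f x ≠ f y) := by
      intro f hf
      obtain ⟨h1, h2⟩ := mem_filter.1 hf
      exact ⟨(mem_cols.1 h1).1, h2, (mem_cols.1 h1).2⟩
    have hES : S.card ≤ j * (S.image F).card := by
      apply Finset.card_le_mul_card_image
      intro h hh
      rw [mem_image] at hh
      obtain ⟨⟨g, c⟩, hgc, rfl⟩ := hh
      rw [hS, mem_product] at hgc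
      obtain ⟨hg, hc⟩ := hgc
      obtain ⟨hg1, hg2, hg3⟩ := hgood g hg
      have himg : ((univ : Finset (Fin q)).image (fun i => g (Sum.inr i))).card = q := by
        rw [Finset.card_image_of_injective, Finset.card_univ, Fintype.card_fin]
        intro i i' hii
        by_contra hne
        exact hg3 (Sum.inr i) (Sum.inr i') hne hii
      have hsub : (univ : Finset (Fin q)).image (fun i => g (Sum.inr i)) ⊆ A := by
        intro a ha
        obtain ⟨i, _, rfl⟩ := mem_image.1 ha
        exact hg1 _
      have hAj : (A \ (univ : Finset (Fin q)).image (fun i => g (Sum.inr i))).card = j := by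
        rw [Finset.card_sdiff_of_subset hsub, himg, hA]
        omega
      rw [← hAj]
      apply Finset.card_le_card_of_injOn (fun x : (V ⊕ Fin q → ℕ) × ℕ => x.1 (Sum.inl v0))
      · rintro ⟨g', c'⟩ hx
        obtain ⟨hx1, hx2⟩ := mem_filter.1 (Finset.mem_coe.1 hx)
        rw [hS, mem_product] at hx1
        obtain ⟨hg'1, hg'2, hg'3⟩ := hgood g' hx1.1
        refine Finset.mem_coe.2 (mem_sdiff.2 ⟨hg'1 _, ?_⟩)
        intro hmem
        obtain ⟨i, _, hi⟩ := mem_image.1 hmem
        have h1 : g' (Sum.inr i) = g (Sum.inr i) := by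
          have := congrFun hx2 (Sum.inr i)
          simpa [hF] using this
        exact hg'3 (Sum.inr i) (Sum.inl v0) trivial (h1.trans hi)
      · rintro ⟨g', c'⟩ hx ⟨g'', c''⟩ hy hxy
        obtain ⟨hx1, hx2⟩ := mem_filter.1 (Finset.mem_coe.1 hx)
        obtain ⟨hy1, hy2⟩ := mem_filter.1 (Finset.mem_coe.1 hy)
        have hxy' : g' (Sum.inl v0) = g'' (Sum.inl v0) := hxy
        have h1 : Function.update g' (Sum.inl v0) c' = Function.update g'' (Sum.inl v0) c'' :=
          hx2.trans hy2.symm
        have h2 : c' = c'' := by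
          have := congrFun h1 (Sum.inl v0)
          simpa using this
        have h3 : g' = g'' := by
          funext w
          by_cases hw : w = Sum.inl v0
          · rw [hw]; exact hxy'
          · have := congrFun h1 w
            rwa [Function.update_of_ne hw, Function.update_of_ne hw] at this
        rw [h2, h3]
    have hEsub : S.image F ⊆ cols (J G q) L := by
      intro h hh
      rw [mem_image] at hh
      obtain ⟨⟨g, c⟩, hgc, rfl⟩ := hh
      rw [hS, mem_product] at hgc
      obtain ⟨hg, hc⟩ := hgc
      change c ∈ _ at hc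
      obtain ⟨hg1, hg2, hg3⟩ := hgood g hg
      rw [mem_sdiff] at hc
      refine mem_cols.2 ⟨fun w => ?_, fun x y hxy => ?_⟩
      · change Function.update g (Sum.inl v0) c w ∈ L w
        by_cases hw : w = Sum.inl v0
        · subst hw; rw [Function.update_self]; exact hc.1
        · rw [Function.update_of_ne hw]; exact hg2 w
      · change Function.update g (Sum.inl v0) c x ≠ Function.update g (Sum.inl v0) c y
        by_cases hx : x = Sum.inl v0
        · subst hx
          rw [Function.update_self, Function.update_of_ne hxy.ne.symm]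
          intro h
          exact hc.2 (h ▸ hg1 y)
        · by_cases hy : y = Sum.inl v0
          · subst hy
            rw [Function.update_self, Function.update_of_ne hx]
            intro h
            exact hc.2 (h ▸ hg1 x)
          · rw [Function.update_of_ne hx, Function.update_of_ne hy]
            exact hg3 x y hxy
    have hdisj : Disjoint Good (S.image F) := by
      rw [Finset.disjoint_left]
      intro f hf hf'
      rw [mem_image] at hf'
      obtain ⟨⟨g, c⟩, hgc, rfl⟩ := hf'
      rw [hS, mem_product] at hgc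
      obtain ⟨hg, hc⟩ := hgc
      change c ∈ _ at hc
      rw [mem_sdiff] at hc
      have := (hgood _ hf).1 (Sum.inl v0)
      change Function.update g (Sum.inl v0) c (Sum.inl v0) ∈ A at this
      rw [Function.update_self] at this
      exact hc.2 this
    have hcard : Good.card + (S.image F).card ≤ (cols (J G q) L).card := by
      rw [← Finset.card_union_of_disjoint hdisj]
      exact card_le_card (Finset.union_subset hGoodsub hEsub)
    have hScard : S.card = Good.card * t := by rw [hS, card_product, ht']
    rw [hScard] at hES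
    have hn0 : 0 < Fintype.card V := by
      rw [← Finset.card_univ]; exact Finset.card_pos.2 hVne
    have h1 : (q + j) * X.card ≤ (q + j) * Good.card + T * X.card := by
      calc (q + j) * X.card = (q + j) * Good.card +
            (q + j) * (X.filter (fun f => ¬ ∀ w, f w ∈ L w)).card := by
            rw [← hsplit, Nat.mul_add]
        _ ≤ _ := Nat.add_le_add_left hbad _
    exact near_arith_nat (q + j) (Fintype.card V) j T X.card Good.card (S.image F).card _ t hn0
      (by omega) (by omega) h1 hES hcard hTt hT

end Pool.Agent.Q274.LCF
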