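import Pool.Agent.Q274.LCF.Near

set_option autoImplicit false
set_option linter.unusedSectionVars false

/-!
# The join of a graph with a large clique is chromatic-choosable
-/

namespace Pool.Agent.Q274.LCF

open Finset
open scoped Classical

variable {V : Type} [Fintype V]

theorem ohba (G : SimpleGraph V) (j p : ℕ) (hG : 0 < N G j) (hp : Fintype.card V ^ 2 ≤ p)
    (L : V ⊕ Fin p → Finset ℕ) (hL : ∀ w, (L w).card = p + j) :
    0 < (cols (J G p) L).card := by
  rw [Finset.card_pos]
  obtain ⟨X, _, hX⟩ := Finset.exists_max_image (univ : Finset (Finset (V ⊕ Fin p)))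
    (fun X => (X.card : ℤ) - (X.biUnion L).card) ⟨∅, mem_univ _⟩
  by_cases hd : ((X.biUnion L).card : ℤ) < X.card
  swap
  · -- Hall's condition holds
    push Not at hd
    obtain ⟨f, hf1, hf2⟩ := (Finset.all_card_le_biUnion_card_iff_exists_injective L).1 (by
      intro s
      have := hX s (mem_univ _)
      omega)
    exact ⟨f, mem_cols.2 ⟨hf2, fun x y hxy h => hxy.ne (hf1 h)⟩⟩
  · -- a maximal deficient set
    set LX := X.biUnion L with hLX
    -- outside
    obtain ⟨fo, hfo1, hfo2⟩ := (Finset.all_card_le_biUnion_card_iff_exists_injective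
      (fun w : {w // w ∉ X} => L w \ LX)).1 (by
        intro s
        set Y : Finset (V ⊕ Fin p) := s.map (Function.Embedding.subtype _) with hY
        have hYX : Disjoint X Y := by
          rw [Finset.disjoint_right]
          intro w hw
          rw [hY, mem_map] at hw
          obtain ⟨w', _, rfl⟩ := hw
          exact w'.2
        have h1 := hX (X ∪ Y) (mem_univ _)
        rw [card_union_of_disjoint hYX] at h1
        have h2 : (X ∪ Y).biUnion L ⊆ LX ∪ s.biUnion (fun w : {w // w ∉ X} => L w \ LX) := by
          intro c hc
          rw [mem_biUnion] at hc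
          obtain ⟨w, hw, hcw⟩ := hc
          rw [mem_union]
          by_cases hcL : c ∈ LX
          · exact Or.inl hcL
          · right
            rcases mem_union.1 hw with hw | hw
            · exact absurd (mem_biUnion.2 ⟨w, hw, hcw⟩) hcL
            · rw [hY, mem_map] at hw
              obtain ⟨w', hw', rfl⟩ := hw
              exact mem_biUnion.2 ⟨w', hw', mem_sdiff.2 ⟨hcw, hcL⟩⟩
        have h3 := (card_le_card h2).trans (card_union_le _ _)
        have h4 : Y.card = s.card := card_map _
        push_cast at h1
        omega)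
    -- the size of `LX`
    have hXne : X.Nonempty := by
      rw [← Finset.card_pos]
      omega
    obtain ⟨w0, hw0⟩ := hXne
    have hLX1 : p + j ≤ LX.card := by
      rw [← hL w0]
      exact card_le_card (Finset.subset_biUnion_of_mem L hw0)
    have hLX2 : LX.card ≤ Fintype.card V + p := by
      have : X.card ≤ Fintype.card (V ⊕ Fin p) := Finset.card_le_univ _
      rw [Fintype.card_sum, Fintype.card_fin] at this
      omega
    -- common colours
    set I := LX.filter (fun c => ∀ v, Sum.inl v ∈ X → c ∈ L (Sum.inl v)) with hI
    have hIj : j ≤ I.card := by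
      have h1 : LX \ I ⊆ ((univ : Finset V).filter (fun v => Sum.inl v ∈ X)).biUnion
          (fun v => LX \ L (Sum.inl v)) := by
        intro c hc
        rw [mem_sdiff, hI, mem_filter] at hc
        obtain ⟨hc1, hc2⟩ := hc
        have : ¬ ∀ v, Sum.inl v ∈ X → c ∈ L (Sum.inl v) := fun h => hc2 ⟨hc1, h⟩
        push Not at this
        obtain ⟨v, hv, hcv⟩ := this
        exact mem_biUnion.2 ⟨v, mem_filter.2 ⟨mem_univ _, hv⟩, mem_sdiff.2 ⟨hc1, hcv⟩⟩
      have h2 : (LX \ I).card ≤ Fintype.card V * Fintype.card V := by
        refine (card_le_card h1).trans (card_biUnion_le.trans ?_)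
        calc ∑ v ∈ (univ : Finset V).filter (fun v => Sum.inl v ∈ X), (LX \ L (Sum.inl v)).card
            ≤ ∑ v ∈ (univ : Finset V).filter (fun v => Sum.inl v ∈ X), Fintype.card V := by
              refine Finset.sum_le_sum fun v hv => ?_
              have hsub : L (Sum.inl v) ⊆ LX :=
                Finset.subset_biUnion_of_mem L (mem_filter.1 hv).2
              rw [Finset.card_sdiff_of_subset hsub, hL]
              omega
          _ ≤ _ := by
              rw [Finset.sum_const, smul_eq_mul]
              exact Nat.mul_le_mul_right _ (Finset.card_le_univ _)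
      have h3 : (LX \ I).card + I.card = LX.card :=
        Finset.card_sdiff_add_card_eq_card (filter_subset _ _)
      rw [pow_two] at hp
      omega
    obtain ⟨D, hDI, hDj⟩ := Finset.exists_subset_card_eq hIj
    have hND : 0 < (cols G (fun _ => D)).card := by rw [card_const G D j hDj]; exact hG
    obtain ⟨cD, hcD⟩ := Finset.card_pos.1 hND
    rw [mem_cols] at hcD
    -- the clique vertices in `X`
    obtain ⟨fi, hfi1, hfi2⟩ := (Finset.all_card_le_biUnion_card_iff_exists_injective
      (fun i : {i : Fin p // Sum.inr i ∈ X} => L (Sum.inr i.1) \ D)).1 (by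
        intro s
        rcases s.eq_empty_or_nonempty with rfl | ⟨i, hi⟩
        · simp
        · have h1 : s.card ≤ p := by
            have h1 : s.card ≤ Fintype.card {i : Fin p // Sum.inr i ∈ X} := Finset.card_le_univ _
            have h2 := Fintype.card_subtype_le (fun i : Fin p => Sum.inr i ∈ X)
            rw [Fintype.card_fin] at h2
            exact h1.trans h2
          have h2 : p ≤ (L (Sum.inr i.1) \ D).card := by
            have := Finset.le_card_sdiff D (L (Sum.inr i.1))
            rw [hL, hDj] at this
            omega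
          exact h1.trans (h2.trans (card_le_card (Finset.subset_biUnion_of_mem
            (fun i : {i : Fin p // Sum.inr i ∈ X} => L (Sum.inr i.1) \ D) hi))))
    -- put everything together
    set f : V ⊕ Fin p → ℕ := fun w => if h : w ∈ X then
      (match w, h with
        | Sum.inl v, _ => cD v
        | Sum.inr i, h => fi ⟨i, h⟩) else fo ⟨w, h⟩ with hf
    have fout : ∀ w (h : w ∉ X), f w = fo ⟨w, h⟩ := by
      intro w h; simp only [hf, dif_neg h]
    have finl : ∀ v (h : Sum.inl v ∈ X), f (Sum.inl v) = cD v := by
      intro v h; simp only [hf, dif_pos h]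
    have finr : ∀ i (h : Sum.inr i ∈ X), f (Sum.inr i) = fi ⟨i, h⟩ := by
      intro v h; simp only [hf, dif_pos h]
    have hfiL : ∀ i (h : Sum.inr i ∈ X), fi ⟨i, h⟩ ∈ L (Sum.inr i) ∧ fi ⟨i, h⟩ ∉ D :=
      fun i h => mem_sdiff.1 (hfi2 ⟨i, h⟩)
    have hfoL : ∀ w (h : w ∉ X), fo ⟨w, h⟩ ∈ L w ∧ fo ⟨w, h⟩ ∉ LX :=
      fun w h => mem_sdiff.1 (hfo2 ⟨w, h⟩)
    have hcDI : ∀ v, cD v ∈ LX ∧ ∀ v', Sum.inl v' ∈ X → cD v ∈ L (Sum.inl v') :=
      fun v => mem_filter.1 (hDI (hcD.1 v))
    have fLX : ∀ w, w ∈ X → f w ∈ LX := by
      intro w h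
      rcases w with v | i
      · rw [finl v h]; exact (hcDI v).1
      · rw [finr i h]; exact mem_biUnion.2 ⟨_, h, (hfiL i h).1⟩
    refine ⟨f, mem_cols.2 ⟨fun w => ?_, fun x y hxy => ?_⟩⟩
    · by_cases h : w ∈ X
      · rcases w with v | i
        · rw [finl v h]; exact (hcDI v).2 v h
        · rw [finr i h]; exact (hfiL i h).1
      · rw [fout w h]; exact (hfoL w h).1
    · by_cases hx : x ∈ X
      · by_cases hy : y ∈ X
        · rcases x with v | i <;> rcases y with v' | i'
          · rw [finl v hx, finl v' hy]; exact hcD.2 v v' hxy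
          · rw [finl v hx, finr i' hy]
            intro h
            exact (hfiL i' hy).2 (h ▸ hcD.1 v)
          · rw [finr i hx, finl v' hy]
            intro h
            exact (hfiL i hx).2 (h ▸ hcD.1 v')
          · rw [finr i hx, finr i' hy]
            intro h
            have := hfi1 h
            exact hxy (congrArg Subtype.val this)
        · intro h
          have h1 := fLX x hx
          rw [h, fout y hy] at h1
          exact (hfoL y hy).2 h1
      · by_cases hy : y ∈ X
        · intro h
          have h1 := fLX y hy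
          rw [← h, fout x hx] at h1
          exact (hfoL x hx).2 h1
        · rw [fout x hx, fout y hy]
          intro h
          have := hfo1 h
          exact hxy.ne (congrArg Subtype.val this)

end Pool.Agent.Q274.LCF
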